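import Mathlib

/-! MP_362855_co: lattice points in dilates of a lattice simplex. -/

set_option autoImplicit false
set_option linter.unusedSectionVars false

namespace Pool.Agent.R249.HStar

open Finset Matrix
open scoped Pointwise

/-- an integer point as a real point -/
def emb {d : ℕ} (z : Fin d → ℤ) : Fin d → ℝ := fun j => (z j : ℝ)

/-- the vector `(z, m)` -/
def aug {d : ℕ} (z : Fin d → ℤ) (m : ℤ) : Fin (d + 1) → ℤ := Fin.snoc (α := fun _ => ℤ) z m

@[simp] lemma aug_castSucc {d : ℕ} (z : Fin d → ℤ) (m : ℤ) (j : Fin d) :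
    aug z m j.castSucc = z j := by simp [aug]

@[simp] lemma aug_last {d : ℕ} (z : Fin d → ℤ) (m : ℤ) : aug z m (Fin.last d) = m := by
  simp [aug]

lemma aug_init {d : ℕ} (u : Fin (d + 1) → ℤ) :
    aug (fun j => u j.castSucc) (u (Fin.last d)) = u := by
  funext i
  refine Fin.lastCases ?_ (fun j => ?_) i
  · simp
  · simp

/-- the matrix with rows `(v i, 1)` -/
def WM {d : ℕ} (v : Fin (d + 1) → Fin d → ℤ) : Matrix (Fin (d + 1)) (Fin (d + 1)) ℤ :=
  Matrix.of fun i => aug (v i) 1

lemma WM_last {d : ℕ} (v : Fin (d + 1) → Fin d → ℤ) (i) : WM v i (Fin.last d) = 1 := by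
  simp [WM]

lemma WM_castSucc {d : ℕ} (v : Fin (d + 1) → Fin d → ℤ) (i) (j : Fin d) :
    WM v i j.castSucc = v i j := by
  simp [WM]

lemma exists_A {n : ℕ} (W : Matrix (Fin n) (Fin n) ℤ) (hW : W.det ≠ 0) :
    ∃ (D : ℕ) (A : Matrix (Fin n) (Fin n) ℤ), D ≠ 0 ∧ A * W = (D : ℤ) • 1 ∧
      W * A = (D : ℤ) • 1 := by
  refine ⟨W.det.natAbs, W.det.sign • W.adjugate, Int.natAbs_ne_zero.2 hW, ?_, ?_⟩
  · rw [Matrix.smul_mul, Matrix.adjugate_mul, smul_smul, Int.sign_mul_self_eq_abs,
      Int.natCast_natAbs]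
  · rw [Matrix.mul_smul, Matrix.mul_adjugate, smul_smul, Int.sign_mul_self_eq_abs,
      Int.natCast_natAbs]

lemma det_ne_zero {d : ℕ} (v : Fin (d + 1) → Fin d → ℤ)
    (hv : AffineIndependent ℝ (fun i => emb (v i))) : (WM v).det ≠ 0 := by
  intro h
  obtain ⟨w, hw0, hw⟩ := Matrix.exists_vecMul_eq_zero_iff.2 h
  apply hw0
  have h1 : ∀ l, ∑ i, w i * WM v i l = 0 := fun l => by
    have := congrFun hw l
    simpa [Matrix.vecMul, dotProduct] using this
  have h2 := affineIndependent_iff.1 hv univ (fun i => (w i : ℝ)) (by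
    have := h1 (Fin.last d)
    simp only [WM_last, mul_one] at this
    exact_mod_cast this) (by
    funext l
    have := h1 l.castSucc
    simp only [WM_castSucc] at this
    rw [Finset.sum_apply]
    simp only [Pi.smul_apply, smul_eq_mul, Pi.zero_apply, emb]
    exact_mod_cast this)
  funext i
  have := h2 i (mem_univ i)
  exact_mod_cast this

section

variable {d : ℕ} {v : Fin (d + 1) → Fin d → ℤ} {D : ℕ} {A : Matrix (Fin (d + 1)) (Fin (d + 1)) ℤ}

lemma sum_c (hA : A * WM v = (D : ℤ) • 1) (u : Fin (d + 1) → ℤ) :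
    ∑ i, (u ᵥ* A) i = D * u (Fin.last d) := by
  have h : (u ᵥ* A) ᵥ* WM v = (D : ℤ) • u := by
    rw [Matrix.vecMul_vecMul, hA, Matrix.vecMul_smul, Matrix.vecMul_one]
  have h1 := congrFun h (Fin.last d)
  simpa [Matrix.vecMul, dotProduct, WM_last] using h1

lemma mem_iff (hD : D ≠ 0) (hA : A * WM v = (D : ℤ) • 1) (hA' : WM v * A = (D : ℤ) • 1)
    (z : Fin d → ℤ) (m : ℕ) :
    emb z ∈ (m : ℝ) • convexHull ℝ (Set.range fun i => emb (v i)) ↔
      ∀ i, 0 ≤ (aug z m ᵥ* A) i := by
  have hDpos : (0 : ℝ) < D := by exact_mod_cast Nat.pos_of_ne_zero hD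
  constructor
  · rintro ⟨y, hy, hyz⟩ i
    -- the real affine function
    let g : (Fin d → ℝ) → ℝ := fun y => ∑ j : Fin d, y j * (A j.castSucc i : ℝ) +
      (A (Fin.last d) i : ℝ)
    have hconv : Convex ℝ {y | 0 ≤ g y} := by
      intro x hx y hy a b ha hb hab
      rw [Set.mem_ofPred_eq] at hx hy ⊢
      have : g (a • x + b • y) = a * g x + b * g y := by
        simp only [g, Pi.add_apply, Pi.smul_apply, smul_eq_mul, add_mul, sum_add_distrib,
          mul_add, mul_sum]
        have e : (A (Fin.last d) i : ℝ) = a * (A (Fin.last d) i : ℝ) +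
            b * (A (Fin.last d) i : ℝ) := by rw [← add_mul, hab, one_mul]
        nth_rewrite 1 [e]
        simp only [mul_assoc]
        ring
      rw [this]
      positivity
    have hvert : Set.range (fun i => emb (v i)) ⊆ {y | 0 ≤ g y} := by
      rintro _ ⟨l, rfl⟩
      rw [Set.mem_ofPred_eq]
      have h1 : (WM v * A) l i = ((D : ℤ) • (1 : Matrix (Fin (d + 1)) (Fin (d + 1)) ℤ)) l i := by
        rw [hA']
      rw [Matrix.mul_apply, Fin.sum_univ_castSucc] at h1
      simp only [WM_castSucc, WM_last, one_mul] at h1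
      have h2 : (0 : ℤ) ≤ ((D : ℤ) • (1 : Matrix (Fin (d + 1)) (Fin (d + 1)) ℤ)) l i := by
        rw [Matrix.smul_apply, Matrix.one_apply]
        split_ifs <;> simp
      rw [← h1] at h2
      simp only [g, emb]
      exact_mod_cast h2
    have hyg : 0 ≤ g y := convexHull_min hvert hconv hy
    have hz : ((aug z m ᵥ* A) i : ℝ) = m * g y := by
      simp only [Matrix.vecMul, dotProduct, g]
      rw [Fin.sum_univ_castSucc]
      simp only [aug_castSucc, aug_last]
      push_cast
      rw [mul_add, mul_sum]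
      congr 1
      refine sum_congr rfl fun j _ => ?_
      have := congrFun hyz j
      simp only [Pi.smul_apply, smul_eq_mul, emb] at this
      rw [← this]; ring
    have : (0 : ℝ) ≤ ((aug z m ᵥ* A) i : ℝ) := by rw [hz]; positivity
    exact_mod_cast this
  · intro h
    have hsum := sum_c hA (aug z m)
    rw [aug_last] at hsum
    have hvec : (aug z m ᵥ* A) ᵥ* WM v = (D : ℤ) • aug z m := by
      rw [Matrix.vecMul_vecMul, hA, Matrix.vecMul_smul, Matrix.vecMul_one]
    have hco : ∀ j : Fin d, ∑ i, (aug z m ᵥ* A) i * v i j = D * z j := by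
      intro j
      have h1 := congrFun hvec j.castSucc
      rw [Matrix.vecMul, dotProduct] at h1
      simpa [WM_castSucc] using h1
    rcases Nat.eq_zero_or_pos m with hm | hm
    · subst hm
      have h0 : ∀ i, (aug z (0 : ℕ) ᵥ* A) i = 0 := by
        have h1 : ∑ i, (aug z (0 : ℕ) ᵥ* A) i = 0 := by rw [hsum]; simp
        intro i
        exact (sum_eq_zero_iff_of_nonneg (fun i _ => h i)).1 h1 i (mem_univ i)
      refine ⟨emb (v 0), subset_convexHull ℝ _ ⟨0, rfl⟩, ?_⟩
      funext j
      have h2 := hco j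
      simp only [h0, zero_mul, sum_const_zero] at h2
      have h3 : z j = 0 := by
        rcases mul_eq_zero.1 h2.symm with h | h
        · exact absurd (by exact_mod_cast h) hD
        · exact h
      simp [emb, h3]
    · have hmpos : (0 : ℝ) < m := by exact_mod_cast hm
      refine ⟨∑ i, (((aug z m ᵥ* A) i : ℝ) / (D * m)) • emb (v i), ?_, ?_⟩
      · refine (convex_convexHull ℝ _).sum_mem (fun i _ => ?_) ?_ (fun i _ =>
          subset_convexHull ℝ _ ⟨i, rfl⟩)
        · have : (0 : ℝ) ≤ ((aug z m ᵥ* A) i : ℝ) := by exact_mod_cast h i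
          positivity
        · rw [← sum_div]
          have : (∑ i, ((aug z m ᵥ* A) i : ℝ)) = D * m := by exact_mod_cast hsum
          rw [this, div_self (by positivity)]
      · funext j
        simp only [Pi.smul_apply, smul_eq_mul]
        rw [Finset.sum_apply]
        simp only [Pi.smul_apply, smul_eq_mul, emb]
        have h1 : (∑ i, ((aug z m ᵥ* A) i : ℝ) * (v i j : ℝ)) = D * z j := by
          exact_mod_cast hco j
        rw [mul_sum]
        calc ∑ i, (m : ℝ) * (((aug z m ᵥ* A) i : ℝ) / (D * m) * (v i j : ℝ))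
            = ∑ i, (((aug z m ᵥ* A) i : ℝ) * (v i j : ℝ)) / D :=
              sum_congr rfl fun i _ => by field_simp
          _ = z j := by rw [← sum_div, h1]; field_simp

end

end Pool.Agent.R249.HStar
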