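import Mathlib

/-! MP_362855_co: the finite group inequality (paper proof by helper600). -/

set_option autoImplicit false

namespace Pool.Agent.R249.HStar

open Finset

set_option linter.unusedSectionVars false

section

variable {A : Type*} [AddCommGroup A] [Fintype A] {I : Type*} [Fintype I] [DecidableEq I]
  {D : ℕ} [NeZero D]

lemma sigma_eq (χ : I → A →+ ZMod D) (H : A → ℕ)
    (hH : ∀ x, D * H x = ∑ i, (χ i x).val) (x : A) :
    H x + H (-x) = (univ.filter fun i => χ i x ≠ 0).card := by
  classical
  have hD : 0 < D := Nat.pos_of_ne_zero (NeZero.ne D)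
  apply Nat.eq_of_mul_eq_mul_left hD
  rw [mul_add, hH, hH, ← sum_add_distrib, card_filter, mul_sum]
  refine sum_congr rfl fun i _ => ?_
  rw [map_neg, ZMod.neg_val]
  by_cases h : χ i x = 0
  · simp [h]
  · rw [if_neg h, if_pos h, mul_one]
    have := (ZMod.val_lt (χ i x)).le
    omega

lemma two_mul_sum (χ : I → A →+ ZMod D) (H : A → ℕ)
    (hH : ∀ x, D * H x = ∑ i, (χ i x).val) (P : A → Prop) [DecidablePred P]
    (hP : ∀ x, P x → P (-x)) :
    2 * ∑ x ∈ univ.filter P, H x =
      ∑ j, (univ.filter fun x => P x ∧ χ j x ≠ 0).card := by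
  classical
  have h1 : ∑ x ∈ univ.filter P, H x = ∑ x ∈ univ.filter P, H (-x) := by
    refine sum_nbij' (fun x => -x) (fun x => -x) ?_ ?_ ?_ ?_ ?_
    · intro x hx
      simp only [mem_filter, mem_univ, true_and] at hx ⊢
      exact hP x hx
    · intro x hx
      simp only [mem_filter, mem_univ, true_and] at hx ⊢
      exact hP x hx
    · intro x _; simp
    · intro x _; simp
    · intro x _; simp
  rw [two_mul]
  nth_rewrite 2 [h1]
  rw [← sum_add_distrib]
  simp_rw [sigma_eq χ H hH, card_filter]
  rw [sum_comm]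
  refine sum_congr rfl fun j _ => ?_
  rw [sum_filter]
  refine sum_congr rfl fun x _ => ?_
  by_cases h1 : P x <;> by_cases h2 : χ j x = 0 <;> simp [h1, h2]

lemma sum_H (H : A → ℕ) {k : ℕ} (hk : 2 ≤ k) (hH0 : H 0 = 0)
    (hval : ∀ x, x ≠ 0 → H x = k ∨ H x = 2 * k) (P : A → Prop) [DecidablePred P]
    (hP0 : P 0) :
    ∑ x ∈ univ.filter P, H x + k =
      k * (univ.filter P).card + k * (univ.filter fun x => P x ∧ H x = 2 * k).card := by
  classical
  have h1 : ∀ x ∈ univ.filter P, H x + (if x = 0 then k else 0) =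
      k + (if H x = 2 * k then k else 0) := by
    intro x _
    by_cases hx : x = 0
    · subst hx
      rw [hH0, if_pos rfl, if_neg (by omega)]; ring
    · rw [if_neg hx]
      rcases hval x hx with h | h
      · rw [h, if_neg (by omega)]
      · rw [h, if_pos rfl]; ring
  have h2 := sum_congr rfl h1
  rw [sum_add_distrib, sum_add_distrib] at h2
  have h3 : ∑ x ∈ univ.filter P, (if x = 0 then k else 0) = k := by
    rw [sum_ite_eq' (univ.filter P) (0 : A) (fun _ => k)]
    simp [hP0]
  rw [h3, sum_const, smul_eq_mul, ← sum_filter, sum_const, smul_eq_mul, filter_filter] at h2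
  rw [h2]; ring

theorem key (χ : I → A →+ ZMod D) (H : A → ℕ)
    (hH : ∀ x, D * H x = ∑ i, (χ i x).val) {k a b : ℕ} (hk : 2 ≤ k) (hb : 2 ≤ b)
    (hval : ∀ x, x ≠ 0 → H x = k ∨ H x = 2 * k)
    (hbc : (univ.filter fun x => H x = 2 * k).card = b)
    (ha : Fintype.card A = a + b + 1) : a + b + 1 ≤ (4 * b + 4) * k := by
  classical
  have hD : 0 < D := Nat.pos_of_ne_zero (NeZero.ne D)
  have hH0 : H 0 = 0 := by
    have := hH 0
    simp only [map_zero, ZMod.val_zero, sum_const_zero, mul_eq_zero] at this
    omega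
  -- kernels
  let K : I → AddSubgroup A := fun i => (χ i).ker
  let κ : I → ℕ := fun i => (univ.filter fun x => χ i x = 0).card
  let ν : I → ℕ := fun i => (univ.filter fun x => χ i x ≠ 0).card
  let κκ : I → I → ℕ := fun i j => (univ.filter fun x => χ i x = 0 ∧ χ j x = 0).card
  let νν : I → I → ℕ := fun i j => (univ.filter fun x => χ i x = 0 ∧ χ j x ≠ 0).card
  let β : I → ℕ := fun i => (univ.filter fun x => χ i x = 0 ∧ H x = 2 * k).card
  let m : I → ℕ := fun i => (K i).index
  have hκ : ∀ i, Nat.card (K i) = κ i := by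
    intro i
    rw [Nat.card_eq_fintype_card, Fintype.card_subtype]
    refine congrArg card (filter_congr fun x _ => ?_)
    exact AddMonoidHom.mem_ker
  have hκκ : ∀ i j, Nat.card (K i ⊓ K j : AddSubgroup A) = κκ i j := by
    intro i j
    rw [Nat.card_eq_fintype_card, Fintype.card_subtype]
    refine congrArg card (filter_congr fun x _ => ?_)
    rw [AddSubgroup.mem_inf]
    exact and_congr AddMonoidHom.mem_ker AddMonoidHom.mem_ker
  have hNc : Nat.card A = a + b + 1 := by rw [Nat.card_eq_fintype_card, ha]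
  have hm : ∀ i, κ i * m i = a + b + 1 := by
    intro i
    rw [← hκ i, ← hNc]
    exact (K i).card_mul_index
  have hνκ : ∀ i, ν i + κ i = a + b + 1 := by
    intro i
    rw [← ha, ← Finset.card_univ, add_comm]
    exact card_filter_add_card_filter_not (fun x => χ i x = 0)
  have hνν : ∀ i j, νν i j + κκ i j = κ i := by
    intro i j
    have := card_filter_add_card_filter_not (s := univ.filter fun x => χ i x = 0)
      (fun x => χ j x = 0)
    rw [filter_filter, filter_filter] at this
    rw [add_comm]; exact this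
  have hkj : ∀ i j, κ j ≤ m i * κκ i j := by
    intro i j
    have h1 : κκ i j * (K i ⊓ K j).index = a + b + 1 := by
      rw [← hκκ, ← hNc]
      exact (K i ⊓ K j).card_mul_index
    have h2 : (K i ⊓ K j).index ≤ m i * m j := AddSubgroup.index_inf_le
    have h3 : 0 < m j := by
      rcases Nat.eq_zero_or_pos (m j) with h | h
      · have := hm j; rw [h] at this; omega
      · exact h
    have h4 : κ j * m j ≤ (m i * κκ i j) * m j := by
      rw [hm j, ← h1]
      calc κκ i j * (K i ⊓ K j).index ≤ κκ i j * (m i * m j) := Nat.mul_le_mul_left _ h2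
        _ = (m i * κκ i j) * m j := by ring
    exact Nat.le_of_mul_le_mul_right h4 h3
  have hterm : ∀ i j, m i * νν i j ≤ if j = i then 0 else ν j := by
    intro i j
    split_ifs with h
    · subst h
      have : νν j j = 0 := by
        simp only [νν, card_eq_zero]
        ext x; simp
      rw [this]; simp
    · have h1 := hνν i j
      have h2 := hkj i j
      have h3 := hνκ j
      have h4 := hm i
      have h5 : m i * νν i j + m i * κκ i j = a + b + 1 := by
        rw [← mul_add, h1, ← h4]; ring
      omega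
  -- the sum over the group
  have e1 : 2 * ∑ x, H x = ∑ j, ν j := by
    have := two_mul_sum χ H hH (fun _ => True) (fun _ _ => trivial)
    simpa using this
  have e2 : ∑ x, H x + k = k * (a + b + 1) + k * b := by
    have := sum_H H hk hH0 hval (fun _ => True) trivial
    simp only [filter_true, true_and, hbc, Finset.card_univ, ha] at this
    exact this
  have e3 : ∀ i, 2 * ∑ x ∈ univ.filter (fun x => χ i x = 0), H x = ∑ j, νν i j := by
    intro i
    exact two_mul_sum χ H hH (fun x => χ i x = 0) (fun x hx => by rw [map_neg, hx, neg_zero])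
  have e4 : ∀ i, ∑ x ∈ univ.filter (fun x => χ i x = 0), H x + k = k * κ i + k * β i := by
    intro i
    exact sum_H H hk hH0 hval (fun x => χ i x = 0) (map_zero _)
  have e5 : ∀ i, m i * ∑ j, νν i j + ν i ≤ ∑ j, ν j := by
    intro i
    rw [mul_sum]
    calc ∑ j, m i * νν i j + ν i ≤ ∑ j, (if j = i then 0 else ν j) + ν i :=
          Nat.add_le_add_right (sum_le_sum fun j _ => hterm i j) _
      _ = ∑ j, ν j := by
          have : ν i = ∑ j, (if j = i then ν j else 0) := by simp
          rw [this, ← sum_add_distrib]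
          exact sum_congr rfl fun j _ => by split_ifs <;> simp
  by_contra hcon
  push Not at hcon
  have hm4 : ∀ i, m i ≠ 1 → 4 ≤ m i := by
    intro i h1
    have h0 : m i ≠ 0 := by
      intro h; have := hm i; rw [h] at this; omega
    by_contra h4
    have h5 := e5 i
    have h6 := e3 i
    have h7 := e4 i
    have h8 := hm i
    have h9 := hνκ i
    rw [← h6, ← e1] at h5
    have hmi : m i = 2 ∨ m i = 3 := by omega
    rcases hmi with h | h
    · rw [h] at h5 h8
      nlinarith [mul_nonneg (Nat.zero_le k) (Nat.zero_le (β i)), h5, h6, h7, h8, h9, e2, hcon]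
    · rw [h] at h5 h8
      nlinarith [mul_nonneg (Nat.zero_le k) (Nat.zero_le (β i)), h5, h6, h7, h8, h9, e2, hcon]
  -- an element of height 2k
  have hne : (univ.filter fun x => H x = 2 * k).Nonempty := by
    rw [← card_pos, hbc]; omega
  obtain ⟨x, hx⟩ := hne
  simp only [mem_filter, mem_univ, true_and] at hx
  have hx0 : x ≠ 0 := by
    rintro rfl; omega
  have hσ := sigma_eq χ H hH x
  have hneg : k ≤ H (-x) := by
    rcases hval (-x) (neg_ne_zero.2 hx0) with h | h <;> omega
  set S := univ.filter fun i => χ i x ≠ 0 with hS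
  have hSc : 3 * k ≤ S.card := by omega
  have hSν : ∀ i ∈ S, 3 * (a + b + 1) ≤ 4 * ν i := by
    intro i hi
    have h1 : m i ≠ 1 := by
      intro h
      have : K i = ⊤ := AddSubgroup.index_eq_one.1 h
      have hxK : x ∈ K i := by rw [this]; trivial
      exact (mem_filter.1 hi).2 (AddMonoidHom.mem_ker.1 hxK)
    have h2 := hm4 i h1
    have h3 := hm i
    have h4 := hνκ i
    have h5 : 4 * κ i ≤ a + b + 1 := by
      rw [← h3]; nlinarith
    omega
  have h6 : S.card * (3 * (a + b + 1)) ≤ 4 * ∑ j, ν j := by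
    calc S.card * (3 * (a + b + 1)) = ∑ _i ∈ S, 3 * (a + b + 1) := by
          rw [sum_const, smul_eq_mul]
      _ ≤ ∑ i ∈ S, 4 * ν i := sum_le_sum hSν
      _ ≤ ∑ i, 4 * ν i := sum_le_sum_of_subset (subset_univ _)
      _ = 4 * ∑ j, ν j := by rw [mul_sum]
  have h7 : 3 * k * (3 * (a + b + 1)) ≤ 4 * ∑ j, ν j :=
    (Nat.mul_le_mul_right _ hSc).trans h6
  rw [← e1] at h7
  have h8 : 9 * k * (a + b + 1) + 8 * k ≤ 8 * k * (a + b + 1) + 8 * k * b := by nlinarith
  have h9 : a + b + 1 + 8 ≤ 8 * b := by
    have h10 : k * (a + b + 1 + 8) ≤ k * (8 * b) := by nlinarith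
    exact Nat.le_of_mul_le_mul_left h10 (by omega)
  have h10 : (4 * b + 4) * 2 ≤ (4 * b + 4) * k := Nat.mul_le_mul_left _ hk
  omega

end

end Pool.Agent.R249.HStar
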