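import Mathlib
import Pool.Agent.R249.HStar.Geo
import Pool.Agent.R249.HStar.Group

/-! MP_362855_co: the Ehrhart series of a lattice simplex. -/

set_option autoImplicit false
set_option linter.unusedSectionVars false

namespace Pool.Agent.R249.HStar

open Finset Matrix
open scoped Pointwise

/-- reduction of the coordinates modulo `D` -/
def red {d : ℕ} (A : Matrix (Fin (d + 1)) (Fin (d + 1)) ℤ) (D : ℕ) :
    (Fin (d + 1) → ℤ) →+ (Fin (d + 1) → ZMod D) where
  toFun u := fun i => (((u ᵥ* A) i : ℤ) : ZMod D)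
  map_zero' := by funext i; simp
  map_add' u w := by funext i; simp [Matrix.add_vecMul]

/-- the height -/
def Hf {d D : ℕ} (x : Fin (d + 1) → ZMod D) : ℕ := (∑ i, (x i).val) / D

section

variable {d : ℕ} {v : Fin (d + 1) → Fin d → ℤ} {D : ℕ} [NeZero D]
  {A : Matrix (Fin (d + 1)) (Fin (d + 1)) ℤ}

lemma mul_Hf (hA : A * WM v = (D : ℤ) • 1) {x : Fin (d + 1) → ZMod D}
    (hx : x ∈ (red A D).range) : D * Hf x = ∑ i, (x i).val := by
  obtain ⟨u, rfl⟩ := hx
  apply Nat.mul_div_cancel'
  rw [← ZMod.natCast_eq_zero_iff]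
  push_cast
  simp only [ZMod.natCast_val, ZMod.cast_id', id_eq]
  have h := sum_c hA u
  have h2 : ((∑ i, (u ᵥ* A) i : ℤ) : ZMod D) = 0 := by
    rw [h]; push_cast; simp
  rw [← h2]
  push_cast
  rfl

lemma fiber (x : Fin (d + 1) → ZMod D) (h : ℕ) (hx : D * h = ∑ i, (x i).val) (m : ℕ) :
    ((finAntidiagonal (d + 1) (D * m)).filter
      (fun f => (fun i => (f i : ZMod D)) = x)).card =
      if h ≤ m then (finAntidiagonal (d + 1) (m - h)).card else 0 := by
  have hD : 0 < D := Nat.pos_of_ne_zero (NeZero.ne D)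
  have hf : ∀ f : Fin (d + 1) → ℕ, (fun i => (f i : ZMod D)) = x → ∀ i,
      f i = (x i).val + D * (f i / D) := by
    intro f hf i
    rw [← hf]
    simp only
    rw [ZMod.val_natCast]
    exact (Nat.mod_add_div _ _).symm
  have hs : ∀ f : Fin (d + 1) → ℕ, (fun i => (f i : ZMod D)) = x →
      ∑ i, f i = D * (h + ∑ i, f i / D) := by
    intro f hfx
    rw [mul_add, hx, mul_sum, ← sum_add_distrib]
    exact sum_congr rfl fun i _ => hf f hfx i
  split_ifs with hm
  · refine card_nbij' (fun f i => f i / D) (fun q i => (x i).val + D * q i) ?_ ?_ ?_ ?_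
    · intro f hfm
      simp only [coe_filter, mem_finAntidiagonal, Set.mem_ofPred_eq] at hfm
      simp only [mem_coe, mem_finAntidiagonal]
      have := hs f hfm.2
      rw [hfm.1] at this
      have := Nat.eq_of_mul_eq_mul_left hD this
      omega
    · intro q hq
      simp only [mem_coe, mem_finAntidiagonal] at hq
      simp only [coe_filter, mem_finAntidiagonal, Set.mem_ofPred_eq]
      constructor
      · rw [sum_add_distrib, ← mul_sum, hq, ← hx, ← mul_add]
        congr 1; omega
      · funext i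
        push_cast
        simp
    · intro f hfm
      simp only [coe_filter, mem_finAntidiagonal, Set.mem_ofPred_eq] at hfm
      funext i
      exact (hf f hfm.2 i).symm
    · intro q _
      funext i
      simp only
      rw [Nat.add_mul_div_left _ _ hD, Nat.div_eq_of_lt (ZMod.val_lt _), zero_add]
  · rw [card_eq_zero, filter_eq_empty_iff]
    intro f hfm hfx
    simp only [mem_finAntidiagonal] at hfm
    have := hs f hfx
    rw [hfm] at this
    have := Nat.eq_of_mul_eq_mul_left hD this
    omega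

open Classical in
lemma ncard_eq (hA : A * WM v = (D : ℤ) • 1) (hA' : WM v * A = (D : ℤ) • 1) (m : ℕ) :
    Set.ncard {z : Fin d → ℤ | emb z ∈ (m : ℝ) • convexHull ℝ (Set.range fun i => emb (v i))} =
      ((finAntidiagonal (d + 1) (D * m)).filter
        (fun f => (fun i => (f i : ZMod D)) ∈ (red A D).range)).card := by
  have hD : D ≠ 0 := NeZero.ne D
  have hDz : (D : ℤ) ≠ 0 := by exact_mod_cast hD
  have hback : ∀ u : Fin (d + 1) → ℤ, (u ᵥ* A) ᵥ* WM v = (D : ℤ) • u := by
    intro u
    rw [Matrix.vecMul_vecMul, hA, Matrix.vecMul_smul, Matrix.vecMul_one]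
  let φ : (Fin d → ℤ) → (Fin (d + 1) → ℕ) := fun z i => ((aug z m ᵥ* A) i).toNat
  have hmem : ∀ z : Fin d → ℤ, z ∈ {z : Fin d → ℤ | emb z ∈ (m : ℝ) • convexHull ℝ
      (Set.range fun i => emb (v i))} ↔ ∀ i, 0 ≤ (aug z m ᵥ* A) i :=
    fun z => mem_iff hD hA hA' z m
  have hφ : ∀ z, (∀ i, 0 ≤ (aug z m ᵥ* A) i) → ∀ i, ((φ z i : ℕ) : ℤ) = (aug z m ᵥ* A) i :=
    fun z hz i => Int.toNat_of_nonneg (hz i)
  have hinj : Set.InjOn φ {z : Fin d → ℤ | emb z ∈ (m : ℝ) • convexHull ℝ
      (Set.range fun i => emb (v i))} := by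
    intro z hz z' hz' h
    have h1 : aug z m ᵥ* A = aug z' m ᵥ* A := by
      funext i
      rw [← hφ z ((hmem z).1 hz) i, ← hφ z' ((hmem z').1 hz') i, h]
    have h2 : (D : ℤ) • aug z m = (D : ℤ) • aug z' m := by rw [← hback, ← hback, h1]
    funext j
    have h3 := congrFun h2 j.castSucc
    simp only [Pi.smul_apply, aug_castSucc, smul_eq_mul] at h3
    exact mul_left_cancel₀ hDz h3
  rw [← Set.InjOn.ncard_image hinj, ← Set.ncard_coe_finset]
  congr 1
  ext f
  simp only [Set.mem_image, coe_filter, mem_finAntidiagonal, Set.mem_ofPred_eq]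
  constructor
  · rintro ⟨z, hz, rfl⟩
    have hz' := (hmem z).1 hz
    constructor
    · have h1 := sum_c hA (aug z m)
      rw [aug_last] at h1
      have h2 : ((∑ i, φ z i : ℕ) : ℤ) = D * m := by
        push_cast
        rw [← h1]
        exact sum_congr rfl fun i _ => hφ z hz' i
      exact_mod_cast h2
    · refine ⟨aug z m, ?_⟩
      funext i
      show (((aug z m ᵥ* A) i : ℤ) : ZMod D) = _
      rw [← hφ z hz' i]
      push_cast
      rfl
  · rintro ⟨hsum, u, hu⟩
    have h1 : ∀ i, ∃ t : ℤ, (f i : ℤ) - (u ᵥ* A) i = D * t := by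
      intro i
      have h2 := congrFun hu i
      change (((u ᵥ* A) i : ℤ) : ZMod D) = (f i : ZMod D) at h2
      have h3 : (((f i : ℤ) - (u ᵥ* A) i : ℤ) : ZMod D) = 0 := by
        push_cast
        rw [h2]; ring
      exact (ZMod.intCast_zmod_eq_zero_iff_dvd _ D).1 h3
    choose t ht using h1
    set w : Fin (d + 1) → ℤ := u + t ᵥ* WM v with hw
    have hwA : ∀ i, (w ᵥ* A) i = f i := by
      intro i
      rw [hw, Matrix.add_vecMul, Matrix.vecMul_vecMul, hA', Matrix.vecMul_smul,
        Matrix.vecMul_one, Pi.add_apply, Pi.smul_apply, smul_eq_mul, ← ht i]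
      ring
    have hwl : w (Fin.last d) = m := by
      have h2 := sum_c hA w
      simp only [hwA] at h2
      have h3 : (∑ i, (f i : ℤ)) = D * m := by exact_mod_cast hsum
      rw [h3] at h2
      exact (mul_left_cancel₀ hDz h2).symm
    have haug : aug (fun j => w j.castSucc) m = w := by
      rw [← hwl]; exact aug_init w
    refine ⟨fun j => w j.castSucc, ?_, ?_⟩
    · refine (hmem _).2 ?_
      rw [haug]
      intro i
      rw [hwA]; positivity
    · funext i
      show ((aug (fun j => w j.castSucc) m ᵥ* A) i).toNat = f i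
      rw [haug, hwA]
      simp

open Classical in
lemma ncard_eq_sum (hA : A * WM v = (D : ℤ) • 1) (hA' : WM v * A = (D : ℤ) • 1) (m : ℕ) :
    Set.ncard {z : Fin d → ℤ | emb z ∈ (m : ℝ) • convexHull ℝ (Set.range fun i => emb (v i))} =
      ∑ x : (red A D).range, if Hf x.1 ≤ m then (finAntidiagonal (d + 1) (m - Hf x.1)).card
        else 0 := by
  rw [ncard_eq hA hA' m, ← Finset.sum_subtype (univ.filter fun x => x ∈ (red A D).range)
    (fun x => by simp) (fun x => if Hf x ≤ m then (finAntidiagonal (d + 1) (m - Hf x)).card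
        else 0)]
  rw [card_eq_sum_card_fiberwise (f := fun f : Fin (d + 1) → ℕ => (fun i => (f i : ZMod D)))
    (t := univ.filter fun x => x ∈ (red A D).range)
    (fun f hf => by
      simp only [coe_filter, Set.mem_ofPred_eq] at hf
      simp only [coe_filter, mem_univ, true_and, Set.mem_ofPred_eq]
      exact hf.2)]
  refine sum_congr rfl fun x hx => ?_
  rw [mem_filter] at hx
  rw [← fiber x (Hf x) (mul_Hf hA hx.2) m, filter_filter]
  refine congrArg card (filter_congr fun f _ => ?_)
  constructor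
  · rintro ⟨_, h⟩; exact h
  · intro h; exact ⟨by rw [h]; exact hx.2, h⟩

open PowerSeries in
lemma coeff_mk_one_pow (n k : ℕ) :
    PowerSeries.coeff k ((PowerSeries.mk 1 : ℤ⟦X⟧) ^ n) = ((finAntidiagonal n k).card : ℤ) := by
  classical
  have h1 : ((PowerSeries.mk 1 : ℤ⟦X⟧) ^ n) = ∏ _i : Fin n, (PowerSeries.mk 1 : ℤ⟦X⟧) := by
    rw [prod_const, Finset.card_univ, Fintype.card_fin]
  rw [h1, PowerSeries.coeff_prod]
  simp only [PowerSeries.coeff_mk, Pi.one_apply, prod_const_one, sum_const, nsmul_eq_mul,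
    mul_one]
  congr 1
  refine card_nbij' (fun f => (f : Fin n → ℕ)) (fun f => Finsupp.equivFunOnFinite.symm f)
    ?_ ?_ ?_ ?_
  · intro f hf
    simp only [mem_coe, mem_finsuppAntidiag] at hf
    simp only [mem_coe, mem_finAntidiagonal]
    exact hf.1
  · intro f hf
    simp only [mem_coe, mem_finAntidiagonal] at hf
    simp only [mem_coe, mem_finsuppAntidiag]
    exact ⟨by simpa using hf, subset_univ _⟩
  · intro f _; ext i; rfl
  · intro f _; rfl

open PowerSeries in
open Classical in
theorem series (hA : A * WM v = (D : ℤ) • 1) (hA' : WM v * A = (D : ℤ) • 1) :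
    (PowerSeries.mk fun m : ℕ => ((Set.ncard {z : Fin d → ℤ | emb z ∈
      (m : ℝ) • convexHull ℝ (Set.range fun i => emb (v i))} : ℕ) : ℤ)) * (1 - X) ^ (d + 1) =
      ∑ x : (red A D).range, (X : ℤ⟦X⟧) ^ Hf x.1 := by
  have h1 : (PowerSeries.mk fun m : ℕ => ((Set.ncard {z : Fin d → ℤ | emb z ∈
      (m : ℝ) • convexHull ℝ (Set.range fun i => emb (v i))} : ℕ) : ℤ)) =
      ∑ x : (red A D).range, (X : ℤ⟦X⟧) ^ Hf x.1 * (PowerSeries.mk 1) ^ (d + 1) := by
    ext m
    rw [PowerSeries.coeff_mk, ncard_eq_sum hA hA' m, map_sum]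
    push_cast
    refine sum_congr rfl fun x _ => ?_
    rw [PowerSeries.coeff_X_pow_mul', coeff_mk_one_pow]
  rw [h1, ← sum_mul, mul_assoc, ← mul_pow, PowerSeries.mk_one_mul_one_sub_eq_one, one_pow,
    mul_one]

end

end Pool.Agent.R249.HStar
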